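import Pool.Agent.Helper10.CV.M_N1
import Pool.Agent.Helper10.S7.M_Uni
import Pool.Agent.Helper22.S7.M_Nfa
import Pool.Agent.Helper25.S7.M_Rel
import Pool.Agent.Helper32.S7.M_Low0
import Pool.Agent.Helper33.S7.M_Edg
import Pool.Agent.Helper34.S7.M_Unb
import Pool.Agent.Helper36.S7.M_Nf
import Pool.Agent.Helper38.CV.M_Far
import Pool.Agent.Helper43.S7.M_PlA
import Pool.Agent.Helper47.S7.M_Val
import Pool.Agent.Helper53.S7.M_HkF
import Pool.Agent.Helper55.CV.M_Fex
import Pool.Agent.Helper55.S7.M_Lifp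
import Pool.Agent.Helper57.S7.M_Opm
import Pool.Agent.Helper60.S7.M_Exp
import Pool.Agent.Helper69.S7.M_Lw1
import Pool.Agent.Helper69.W5.M_PHk
import Pool.Agent.Helper7.S7.M_Trm
import Pool.Agent.Helper72.S7.M_SubB
import Pool.Agent.Helper74.S7.M_PlU
import Pool.Agent.Helper84.S7.M_SubA
import Pool.Agent.Helper84.S7.M_Tre
import Pool.Agent.Helper86.S7.M_Lif
import Pool.Agent.Helper9.S7.M_Ex
import Pool.Agent.Helper92.S7.M_Bb
import Pool.Agent.Helper94.S7.M_HkB
import Pool.Agent.Helper99.S7.M_Prd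

/-!
# Project W7: the operator calculus modulo 7, statements of `StD1` without hypotheses
-/

set_option autoImplicit false

namespace Pool.Agent.Helper84.S7

open Pool.Agent.Helper76.S7 Pool.Agent.Helper14.W5

theorem plA : S7PlA := Pool.Agent.Helper43.S7.hPlA

theorem edg : S7Edg := Pool.Agent.Helper33.S7.hEdg plA Pool.Agent.Helper74.S7.hPlU

theorem phk : SPHk := Pool.Agent.Helper69.W5.hPHk Pool.Agent.Helper10.CV.hN1

theorem trm : S7Trm := Pool.Agent.Helper7.S7.hTrm

theorem tre : S7Tre := Pool.Agent.Helper84.S7.hTre edg plA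

theorem rel : S7Rel := Pool.Agent.Helper25.S7.hRel tre

theorem ex : S7Ex := Pool.Agent.Helper9.S7.hEx trm plA edg Pool.Agent.Helper55.CV.hFex Pool.Agent.Helper38.CV.hFar

theorem uni : S7Uni := Pool.Agent.Helper10.S7.hUni edg tre Pool.Agent.Helper38.CV.hFar

theorem hkB : S7HkB := Pool.Agent.Helper94.S7.hHkB phk

theorem hkF : S7HkF := Pool.Agent.Helper53.S7.hHkF hkB edg plA

theorem low0 : S7Low0 := Pool.Agent.Helper32.S7.hLow0

theorem prd : S7Prd := Pool.Agent.Helper99.S7.hPrd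

theorem subA : S7SubA := Pool.Agent.Helper84.S7.hSubA low0 prd

theorem subB : S7SubB := Pool.Agent.Helper72.S7.hSubB low0 prd

theorem nfa : S7Nfa := Pool.Agent.Helper22.S7.hNfa low0 subA subB

theorem nf : S7Nf := Pool.Agent.Helper36.S7.hNf trm low0 nfa subA

theorem exp7 : S7Exp := Pool.Agent.Helper60.S7.hExp low0 nfa nf

theorem lw1 : S7Lw1 := Pool.Agent.Helper69.S7.hLw1 low0 nfa nf

theorem val7 : S7Val := Pool.Agent.Helper47.S7.hVal low0

theorem opm : S7Opm := Pool.Agent.Helper57.S7.hOpm trm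

theorem bb : S7Bb := Pool.Agent.Helper92.S7.hBb

theorem lifp : S7Lifp := Pool.Agent.Helper55.S7.hLifp trm

theorem lif : S7Lif := Pool.Agent.Helper86.S7.hLif rel lifp ex uni

theorem unb : S7Unb := Pool.Agent.Helper34.S7.hUnb

end Pool.Agent.Helper84.S7
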