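import Pool.Agent.Helper4.S7.Tm

/-!
# Project W7 (level `7^n`): lower bound, operator calculus on plane functions modulo 7

Models: the statements of `Pool/Agent/Helper14/W5/StD.lean` (level `5^n`) and the modules `Pool/Agent/*/W5/M_*.lean` with the same names. The plane is `ZMod q × ZMod q'`, `q = 7^r`, `q' = 7^s` (`μ = 0`). A matrix
`m = (a b; 7c d)` with `a`, `d` prime to `7` (of any determinant) acts on the right by `(x, y) m = ((b + d x)/(a + 7 c x), (c + a y)/(d + 7 b y))`; `tr7 a b c d F` is the function `p ↦ F (p m)`.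
`T = (1 1; 0 1)`, `B = (1 0; 7 1)`, `ρ1 = (2 -1; 7 -3)`, `ρ2 = (5 -3; 7 -4)`, elements of order three (up to sign): `ρ1` maps the cusps `0 ↦ 1/3 ↦ 1/2 ↦ 0`, `ρ2` maps `1/2 ↦ 1 ↦ 2/3 ↦ 1/2`;
`ρ1² = -(3 -1; 7 -2)`, `ρ2² = (4 -3; 7 -5)`, `ρ1³ = 1`, `ρ2³ = -1`.
The names are those of W5 with `5` replaced by `7`; do not import `Helper14/W5/StD.lean` (same names).
-/

set_option autoImplicit false

namespace Pool.Agent.Helper84.S7

open Pool.Agent.Helper14.CV (Homog EqC act Tl StFar StFex)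
open Pool.Agent.Helper28.WK (SymP Tw evw Ok)
open Pool.Agent.Helper76.S7 Pool.Agent.Helper4.S7

/-- Right translation by `(a b; 7c d)`. -/
def tr7 {R : Type} (a b c d : ℤ) {q q' : ℕ} (F : ZMod q → ZMod q' → R) : ZMod q → ZMod q' → R :=
  fun x y => F (((b : ZMod q) + d * x) * ((a : ZMod q) + 7 * c * x)⁻¹)
    (((c : ZMod q') + a * y) * ((d : ZMod q') + 7 * b * y)⁻¹)

/-- TRM. Composition law, identity, homogeneity. (`(p m) m' = p (m m')`, `m m' = (a a' + 7 b c', a b' + b d'; 7 (c a' + d c'), 7 c b' + d d')`;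
denominators are units of `ZMod (7^r)`.) Model: `Pool/Agent/Helper16/W5/M_Trm.lean`. -/
def S7Trm : Prop := ∀ (R : Type) (r s : ℕ) (F : ZMod (7 ^ r) → ZMod (7 ^ s) → R),
  (∀ a b c d a' b' c' d' : ℤ, ¬ 7 ∣ a → ¬ 7 ∣ d → ¬ 7 ∣ a' → ¬ 7 ∣ d' →
    tr7 a b c d (tr7 a' b' c' d' F) =
      tr7 (a * a' + 7 * b * c') (a * b' + b * d') (c * a' + d * c') (7 * c * b' + d * d') F) ∧
  tr7 1 0 0 1 F = F ∧
  (∀ k a b c d : ℤ, ¬ 7 ∣ k → ¬ 7 ∣ a → ¬ 7 ∣ d → tr7 (k * a) (k * b) (k * c) (k * d) F = tr7 a b c d F)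

/-- TRE (from EDG, PLA). Values on translated paths: for `γ = (a b; 7c d)` of determinant one the path from `γ v` to `γ u` at the point `p` is the
path from `v` to `u` at `p γ` (if `g` has coordinates `p` then `g γ` has coordinates `p γ`). Model: `Pool/Agent/Helper69/W5/M_Tre.lean`. -/
def S7Tre : Prop := ∀ (R : Type) (_ : AddCommGroup R) (r s : ℕ) (G : ℤ → ℤ → R), SymP 7 r (s + 1) G →
  ∀ (a b c d u1 u2 v1 v2 : ℤ), a * d - 7 * b * c = 1 → (u1 ≠ 0 ∨ u2 ≠ 0) → (v1 ≠ 0 ∨ v2 ≠ 0) →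
  ∀ (x : ZMod (7 ^ r)) (y : ZMod (7 ^ s)),
  edge7 0 (a * u1 + b * u2) (7 * c * u1 + d * u2) (a * v1 + b * v2) (7 * c * v1 + d * v2) G x y =
    tr7 a b c d (edge7 0 u1 u2 v1 v2 G) x y

/-- The denominators of the end points. -/
def e7 : Fin 2 → ℤ := ![0, 2]

/-- The two plane functions of a symbol: `F0(g) = G(g∞) - G(g0)`, `F1(g) = G(g½) - G(g0)`. -/
noncomputable def pf7 {R : Type} [AddCommGroup R] {q q' : ℕ} (G : ℤ → ℤ → R) (i : Fin 2) :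
    ZMod q → ZMod q' → R := fun x y => edge7 0 1 (e7 i) 0 1 G x y

/-- The relations between the two functions: `F1 + F1∘ρ1 + F1∘ρ1² = 0` and, for
`k = F0 - F0∘T - F1` (path from `1/2` to `1`), `k + k∘ρ2 + k∘ρ2² = 0`. -/
def Rel7 {R : Type} [AddCommGroup R] {q q' : ℕ} (F : Fin 2 → ZMod q → ZMod q' → R) : Prop :=
  (∀ x y, F 1 x y + tr7 2 (-1) 1 (-3) (F 1) x y + tr7 3 (-1) 1 (-2) (F 1) x y = 0) ∧
  ∀ x y, F 0 x y - tr7 1 1 0 1 (F 0) x y - F 1 x y +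
    (tr7 5 (-3) 1 (-4) (F 0) x y - tr7 5 2 1 3 (F 0) x y - tr7 5 (-3) 1 (-4) (F 1) x y) +
    (tr7 4 (-3) 1 (-5) (F 0) x y - tr7 4 1 1 2 (F 0) x y - tr7 4 (-3) 1 (-5) (F 1) x y) = 0

/-- REL (from TRE). The plane functions of a symbol satisfy the relations. With `g` of coordinates `p`: `F1(p) = G(g½) - G(g0)`; `ρ1` maps `0 ↦ 1/3`, `½ ↦ 0`, `(3 -1; 7 -2)` (which is `-ρ1²`) maps `0 ↦ ½`, `½ ↦ 1/3`; so the sum is
`(G(g½) - G(g0)) + (G(g0) - G(g⅓)) + (G(g⅓) - G(g½)) = 0`. `F0(p) - F0(pT) = G(g1) - G(g0)` (`T` fixes `∞`, maps `0` to `1`), so `k(p) = G(g1) - G(g½)`; `ρ2` maps `½ ↦ 1`, `1 ↦ ⅔`, `ρ2² = (4 -3; 7 -5)` maps `½ ↦ ⅔`, `1 ↦ ½`: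
`(G(g1) - G(g½)) + (G(g⅔) - G(g1)) + (G(g½) - G(g⅔)) = 0`. `ρ2 T = (5 2; 7 3)`, `ρ2² T = (4 1; 7 2)`. Model: `Pool/Agent/Helper67/W5/M_Rel.lean`. -/
def S7Rel : Prop := ∀ (R : Type) (_ : AddCommGroup R) (r s : ℕ) (G : ℤ → ℤ → R),
  SymP 7 r (s + 1) G → Rel7 (fun i => (pf7 G i : ZMod (7 ^ r) → ZMod (7 ^ s) → R))

/-- EX (from TRM, PLA, EDG, FEX, FAR of CV). Every solution of the relations comes from a symbol. Proof. For `g = (a b; c d)` in `SL₂(ℤ)` define `E g` (the value on the path from `g0` to `g∞`) by the class `(c : d)` modulo `7`; for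
`γ = (a b; 7c' d)` let `p(γ) = (b/a, c'/d)`; `g S = (b -a; d -c)`; `k = F0 - F0∘T - F1`.
`7 ∣ c`: `E g = F0(p(g))`. `7 ∣ d`: `E g = -E(gS)`. `c ≡ d`: `E g = F0(p(γ)) - F0(p(γ T))`, `γ = g (1 0; -1 1)` (path `γ{0,1}`). `c ≡ -d`: `E g = -E(gS)` (`gS` is in the class `c ≡ d`). `c ≡ 2d`: `E g = F1(p(γ))`, `γ = g (1 0; -2 1)` (path `γ{0,½}`).
`c ≡ 3d`: `E g = -E(gS)` (`gS` is in the class `c ≡ 2d`). `c ≡ 4d`: `E g = k(p(γ))`, `γ = g (2 -1; -1 1)` (path `γ{½,1}`). `c ≡ 5d`: `E g = -E(gS)` (`gS` is in the class `c ≡ 4d`). So `E(gS) = -E g` (`E(-g) = E g`, `S² = -1`) without any relation.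
Triangle relation of FEX (`E g = E (g (1 1; 0 1)) + E (g (1 0; 1 1))`), with `t = c/d` modulo `7`; `g (1 1; 0 1)` is in the class `t/(t+1)`, `g (1 0; 1 1)` in the class `t + 1`:
`t = 0`: `0, 1`: `F0(γ) = F0(γT) + (F0(γ) - F0(γT))`. `t = 1`: `4, 2`: `F0(γ) - F0(γT) = k(γ) + F1(γ)` (the triangle `γ{0,½,1}`). `t = 2`: `3, 3`: the triangle `γ{0,⅓,½}`, first relation. `t = 3`: `6, 4`, `t = 5`: `2, 6`: again the triangle `γ{0,½,1}`.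
`t = 4`: `5, 5`: the triangle `γ{½,⅔,1}`, second relation. `t = 6`: `∞, 0`, `t = ∞`: `1, ∞`: as `t = 0`. `E` is invariant under left multiplication by the group of the symbol (coordinates do not change), so `G∘γ ≈ G` by FAR.
Model: `Pool/Agent/Helper10/W5/M_Ex.lean`. -/
def S7Ex : Prop := ∀ (R : Type) (_ : AddCommGroup R) (r s : ℕ)
  (F : Fin 2 → ZMod (7 ^ r) → ZMod (7 ^ s) → R), Rel7 F →
  ∃ G : ℤ → ℤ → R, SymP 7 r (s + 1) G ∧ ∀ i, pf7 G i = F i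

/-- UNI (from EDG/TRE, FAR). A symbol with `F0 = F1 = 0` is constant: `G` has the same value at `g∞, g0, g½, g1` (`1 = T 0`, `g∞ = gT∞`) for every `g = (a b; 7c d)`, and every matrix of
`SL₂(ℤ)` is `g ρ` or `g ρ S` with `ρ` one of `1, (1 0; 1 1), (1 0; 2 1), (1 1; 1 2)` (bottom rows modulo `7` up to scalars: `(0:1), (1:1), (2:1), (4:1)`, with `S`: `(1:0), (6:1), (3:1), (5:1)`; see EX). Model: `Pool/Agent/Helper34/W5/M_Uni.lean`. -/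
def S7Uni : Prop := ∀ (R : Type) (_ : AddCommGroup R) (r s : ℕ) (G : ℤ → ℤ → R),
  SymP 7 r (s + 1) G → (∀ i, (pf7 G i : ZMod (7 ^ r) → ZMod (7 ^ s) → R) = 0) → EqC G 0

/-- HKB. Hecke sums for balanced levels `(r, s)` (from SPHk by `G0(p,q) = G(7^r p, q)`, which is a symbol
of level `(0, r+s)`, `G(p,q) = G0(p, 7^r q)`; `δ` becomes `(a, b/7^r; 7^r c, d)`), and `T_l` preserves
symbols (in the same way). Hypothesis: `SPHk` of `Helper14/W5/StB.lean` (proved). Model: `Pool/Agent/Helper22/W5/M_HkB.lean`. -/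
def S7HkB : Prop := ∀ (R : Type) (_ : AddCommGroup R) (r s l : ℕ) (G : ℤ → ℤ → R), l.Prime →
  l ≠ 7 → SymP 7 r s G → SymP 7 r s (Tl l (7 ^ r) G) ∧
  ∀ δ : Fin (l + 1) → Matrix (Fin 2) (Fin 2) ℤ,
  (∀ P, (δ P).det = l) → (∀ P, (7 : ℤ) ^ r ∣ δ P 0 1) → (∀ P, (7 : ℤ) ^ s ∣ δ P 1 0) →
  (∀ P P', P ≠ P' → ¬ ∀ i j, (l : ℤ) ∣ (δ P * (δ P').adjugate) i j) →
  EqC (fun p q => ∑ P, G (δ P 0 0 * p + δ P 0 1 * q) (δ P 1 0 * p + δ P 1 1 * q))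
    (Tl l (7 ^ r) G)

/-- HKF (from HKB, EDG, PLA). Hecke formula on the plane for the path from `v` to `u`. `J` is a complete system of residues modulo `l`. For `g` with
coordinates `(x,y)` use in HKB the family `δ = g_j (1 j; 0 l) g⁻¹`, `j ∈ J`, and `g_∞ (l 0; 0 1) g⁻¹`, where `g_j` is the standard matrix with coordinates
`((x-j)/l, l y/(1-7jy))` (this is `(x,y) (l -j; 0 1)`) and `g_∞` the one with coordinates `(l x, y/l)` (this is `(x,y)(1 0; 0 l)`): both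
`g_j (1 j; 0 l)` and `g_∞ (l 0; 0 1)` have plane coordinates `(x, y)`, so `δ` satisfies the congruences. Then `G(δ g u) = G(g_j (1 j; 0 l) u)`. Model: `Pool/Agent/Helper60/W5/M_HkF.lean`. -/
def S7HkF : Prop := ∀ (R : Type) (_ : AddCommGroup R) (r s l : ℕ) (G : ℤ → ℤ → R) (J : Finset ℤ),
  l.Prime → l ≠ 7 → SymP 7 r (s + 1) G → J.card = l →
  (∀ j ∈ J, ∀ j' ∈ J, (l : ℤ) ∣ j - j' → j = j') →
  ∀ (u1 u2 v1 v2 : ℤ), (u1 ≠ 0 ∨ u2 ≠ 0) → (v1 ≠ 0 ∨ v2 ≠ 0) → ∀ (x : ZMod (7 ^ r)) (y : ZMod (7 ^ s)),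
  edge7 0 u1 u2 v1 v2 (Tl l (7 ^ r) G) x y =
    tr7 1 0 0 l (edge7 0 (l * u1) u2 (l * v1) v2 G) x y +
    ∑ j ∈ J, tr7 l (-j) 0 1 (edge7 0 (u1 + j * u2) (l * u2) (v1 + j * v2) (l * v2) G) x y

/-! ### Operators on functions with values in `ZMod 7` -/

/-- Plane functions modulo 7. -/
abbrev Fn7 (q q' : ℕ) : Type := ZMod q → ZMod q' → ZMod 7

/-- The operator of `(a b; 7c d)`. -/
def op7 (a b c d : ℤ) {q q' : ℕ} : Module.End (ZMod 7) (Fn7 q q') where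
  toFun F := tr7 a b c d F
  map_add' _ _ := rfl
  map_smul' _ _ := rfl

/-- The operator of a list of terms. -/
def opL (L : List Tm) {q q' : ℕ} : Module.End (ZMod 7) (Fn7 q q') :=
  (L.map fun t => ((t.1 : ℤ) : ZMod 7) • op7 t.2.1 t.2.2.1 t.2.2.2.1 t.2.2.2.2).sum

/-- Difference in `x`. -/
def dX {q q' : ℕ} : Module.End (ZMod 7) (Fn7 q q') where
  toFun F x y := F (x + 1) y - F x y
  map_add' F G := by funext x y; simp only [Pi.add_apply]; ring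
  map_smul' c F := by funext x y; simp only [Pi.smul_apply, smul_eq_mul, RingHom.id_apply]; ring

/-- Difference in `y`. -/
def dY {q q' : ℕ} : Module.End (ZMod 7) (Fn7 q q') where
  toFun F x y := F x (y + 1) - F x y
  map_add' F G := by funext x y; simp only [Pi.add_apply]; ring
  map_smul' c F := by funext x y; simp only [Pi.smul_apply, smul_eq_mul, RingHom.id_apply]; ring

/-- `F ↦ F(x + 1, y/(1 + 7y))`. -/
def oA {q q' : ℕ} : Module.End (ZMod 7) (Fn7 q q') := op7 1 1 0 1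

/-- `F ↦ F(x/(1 + 7x), y + 1)`. -/
def oB {q q' : ℕ} : Module.End (ZMod 7) (Fn7 q q') := op7 1 0 1 1

/-- `F ↦ F(8x, y/8)`. -/
def oD {q q' : ℕ} : Module.End (ZMod 7) (Fn7 q q') := op7 1 0 0 8

/-- Sixth roots of unity modulo `49`: `19^w` (`5^w` modulo `7`, that is `1, 5, 4, 6, 2, 3`). -/
def om6 : Fin 6 → ℤ := ![1, 19, 18, -1, -19, -18]

/-- `F ↦ F(om x, y/om)`. -/
def oW (w : Fin 6) {q q' : ℕ} : Module.End (ZMod 7) (Fn7 q q') := op7 1 0 0 (om6 w)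

/-- Functions of degree at most `d` (`0` for `d < 0`). -/
def Wd7 {q q' : ℕ} (d : ℤ) : Submodule (ZMod 7) (Fn7 q q') where
  carrier := {F | ∀ i j : ℕ, d < (i : ℤ) + j →
    ((dX ^ i * dY ^ j : Module.End (ZMod 7) (Fn7 q q')) F) = 0}
  add_mem' h h' := by intro i j hij; rw [map_add, h i j hij, h' i j hij, add_zero]
  zero_mem' := by intro i j _; exact map_zero _
  smul_mem' c F h := by intro i j hij; rw [map_smul, h i j hij, smul_zero]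

/-- The operator lowers degrees by at least `k`. -/
def Lw {q q' : ℕ} (O : Module.End (ZMod 7) (Fn7 q q')) (k : ℤ) : Prop :=
  ∀ (d : ℤ) (F : Fn7 q q'), F ∈ Wd7 d → O F ∈ Wd7 (d - k)

/-- LOW0. `Lw` is compatible with sums, products, smaller lowering; `Wd7` is increasing; `dX`, `dY`
commute and lower by `1`; every function has finite degree; the identity is `Lw 0`. Model: `Pool/Agent/Helper7/W5/M_Low0.lean`. -/
def S7Low0 : Prop := ∀ (r s : ℕ),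
  (∀ (O O' : Module.End (ZMod 7) (Fn7 (7 ^ r) (7 ^ s))) (k k' : ℤ), Lw O k → Lw O' k' →
    Lw (O * O') (k + k')) ∧
  (∀ (O O' : Module.End (ZMod 7) (Fn7 (7 ^ r) (7 ^ s))) (k : ℤ), Lw O k → Lw O' k →
    Lw (O + O') k) ∧
  (∀ (O : Module.End (ZMod 7) (Fn7 (7 ^ r) (7 ^ s))) (c : ZMod 7) (k : ℤ), Lw O k → Lw (c • O) k) ∧
  (∀ (O : Module.End (ZMod 7) (Fn7 (7 ^ r) (7 ^ s))) (k k' : ℤ), k' ≤ k → Lw O k → Lw O k') ∧
  (∀ d d' : ℤ, d ≤ d' → (Wd7 d : Submodule (ZMod 7) (Fn7 (7 ^ r) (7 ^ s))) ≤ Wd7 d') ∧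
  Lw (1 : Module.End (ZMod 7) (Fn7 (7 ^ r) (7 ^ s))) 0 ∧
  Lw (dX : Module.End (ZMod 7) (Fn7 (7 ^ r) (7 ^ s))) 1 ∧
  Lw (dY : Module.End (ZMod 7) (Fn7 (7 ^ r) (7 ^ s))) 1 ∧
  (dX * dY : Module.End (ZMod 7) (Fn7 (7 ^ r) (7 ^ s))) = dY * dX ∧
  (dX ^ (7 ^ r) : Module.End (ZMod 7) (Fn7 (7 ^ r) (7 ^ s))) = 0 ∧
  (dY ^ (7 ^ s) : Module.End (ZMod 7) (Fn7 (7 ^ r) (7 ^ s))) = 0 ∧
  (∀ F : Fn7 (7 ^ r) (7 ^ s), F ∈ Wd7 ((7 : ℤ) ^ r + 7 ^ s - 2)) ∧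
  (∀ F : Fn7 (7 ^ r) (7 ^ s), F ∈ Wd7 0 → ∀ x y, F x y = F 0 0) ∧
  (∀ F : Fn7 (7 ^ r) (7 ^ s), F ∈ Wd7 (-1) → F = 0)

/-- PRD. Product rule: degrees add. `dX (F G) = dX F * (G shifted) + F * dX G`, induction. Model: `Pool/Agent/Helper63/W5/M_Prd.lean`. -/
def S7Prd : Prop := ∀ (r s : ℕ) (d e : ℤ) (F G : Fn7 (7 ^ r) (7 ^ s)), F ∈ Wd7 d → G ∈ Wd7 e →
  (fun x y => F x y * G x y) ∈ (Wd7 (d + e) : Submodule (ZMod 7) (Fn7 (7 ^ r) (7 ^ s)))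

/-- SUBA (from LOW0, PRD). Substitutions. Let `t : ZMod (7^s) → ZMod (7^s)` respect all congruences modulo `7^i`. Then
`F(x, y + 49 t(y)) - F(x, y)` has degree at most `d - 9` if `F` has degree at most `d`. Proof. With `Δ = dY` and `u = (t y).val`,
`F(x, y + 49 t) = (1 + Δ)^(49u) F = (1 + Δ^49)^u F = ∑_m (u choose m) (Δ^(49m) F)(x, y)` (characteristic 7), `m < 7^s`. For `m ≥ 1` let `7^i` be the smallest power of seven bigger than `m`, so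
`7^i ≤ 7m`; the function `y ↦ (u(y) choose m)` modulo 7 only depends on `u(y)` modulo `7^i` (Lucas / Vandermonde), so it has period `7^i` in `y`, so `Δ^(7^i)` kills it and its degree is at most
`7^i - 1 ≤ 7m - 1`. By PRD the `m`-th term has degree at most `d - 49m + 7m - 1 ≤ d - 43 ≤ d - 9`. The same in the variable `x`. Model: `Pool/Agent/Helper86/W5/M_SubA.lean`. -/
def S7SubA : Prop := ∀ (r s : ℕ),
  (∀ (t : ZMod (7 ^ s) → ZMod (7 ^ s)),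
    (∀ (i : ℕ) (y y' : ZMod (7 ^ s)), (7 : ZMod (7 ^ s)) ^ i ∣ y - y' → (7 : ZMod (7 ^ s)) ^ i ∣ t y - t y') →
    ∀ (d : ℤ) (F : Fn7 (7 ^ r) (7 ^ s)), F ∈ Wd7 d →
      (fun x y => F x (y + 49 * t y) - F x y) ∈ (Wd7 (d - 9) : Submodule (ZMod 7) (Fn7 (7 ^ r) (7 ^ s)))) ∧
  (∀ (t : ZMod (7 ^ r) → ZMod (7 ^ r)),
    (∀ (i : ℕ) (x x' : ZMod (7 ^ r)), (7 : ZMod (7 ^ r)) ^ i ∣ x - x' → (7 : ZMod (7 ^ r)) ^ i ∣ t x - t x') →
    ∀ (d : ℤ) (F : Fn7 (7 ^ r) (7 ^ s)), F ∈ Wd7 d →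
      (fun x y => F (x + 49 * t x) y - F x y) ∈ (Wd7 (d - 9) : Submodule (ZMod 7) (Fn7 (7 ^ r) (7 ^ s))))

/-- SUBB (from LOW0, PRD). Substitutions `F(x, y + 7 u y^e) - F(x,y)`, `e = 1, 2`, have degree at most `d - (7 - e)`. Proof: as in SUBA, `F(x, y + 7 u y^e) = ∑_m (ũ ỹ^e choose m) (Δ^(7m) F)(x,y)`, `ũ`, `ỹ` representatives in `ℕ`
(`(1+Δ)^(7 ũ ỹ^e) = (1 + Δ⁷)^(ũ ỹ^e)`); the function `y ↦ (ũ ỹ^e choose m)` modulo 7, `m < 7^s`, is well defined on `ZMod (7^s)` (Lucas) and has degree at most `e m`, because `n ↦ (ũ n^e choose m)` on `ℕ` is a polynomial of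
degree at most `e m`, so its differences of order `e m + 1` vanish. So the `m`-th term, `m ≥ 1`, has degree at most `d - 7m + em ≤ d - (7 - e)`. The same in `x`. Model: `Pool/Agent/Helper36/W5/M_SubB.lean`. -/
def S7SubB : Prop := ∀ (r s e : ℕ), (e = 1 ∨ e = 2) →
  (∀ (u : ZMod (7 ^ s)) (d : ℤ) (F : Fn7 (7 ^ r) (7 ^ s)), F ∈ Wd7 d →
      (fun x y => F x (y + 7 * u * y ^ e) - F x y) ∈ (Wd7 (d - (7 - e)) : Submodule (ZMod 7) (Fn7 (7 ^ r) (7 ^ s)))) ∧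
  (∀ (u : ZMod (7 ^ r)) (d : ℤ) (F : Fn7 (7 ^ r) (7 ^ s)), F ∈ Wd7 d →
      (fun x y => F (x + 7 * u * x ^ e) y - F x y) ∈ (Wd7 (d - (7 - e)) : Submodule (ZMod 7) (Fn7 (7 ^ r) (7 ^ s))))

/-- NFA (from LOW0, SUBA, SUBB). Elementary operators. (1) `oW w` preserves degrees: for a natural number `c`, `dX (F(c x, y)) = (((1 + dX)^c - 1) F)(c x, y)`, and `(1 + dX)^c - 1` is `dX` times something; replace `om`, `1/om` by natural
representatives (`om6 w` modulo `7^r`, `1/om6 w` modulo `7^s`); so `dX^i dY^j (oW w F)` is the value of `((1+dX)^c - 1)^i ((1+dY)^c' - 1)^j F` at the scaled point. (2), (3) `(1+dX)^c - 1 = c dX + (terms with dX²)`, `c ≡ om`, and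
`(1+dY)^c' - 1 = c' dY + ...`, `c' ≡ 1/om ≡ om⁵` modulo `7`; so `dX (oW w F) = oW w (om dX F + ...)`, where `...` lowers by two (in (2), (3) and (5) `om6 w` is read modulo `7`). (4) A function of degree `0` is constant. (5) By the formula of (1), for `i + j = d` and
`F` of degree at most `d`: `((1+dX)^c - 1)^i ((1+dY)^c' - 1)^j F = c^i c'^j dX^i dY^j F`, a constant function. (6) `oD`: `8x = x + 7x`, `y/8 = y + 7 (-1/8) y`: SUBB twice, lowers by `6`. (7) `oA`: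
`F(x + 1, y/(1 + 7y))`. Let `φ(y) = y - 7y²`, a permutation of `ZMod (7^s)`; `y/(1 + 7y) = φ(y) + 49 y³/(1 + 7y) = v + 49 t(v)` for `v = φ(y)`, `t(v) = y³/(1 + 7y)`, `y = φ⁻¹(v)`, and `t` respects congruences
(`φ(y) - φ(y') = (y - y')(1 - 7(y + y'))`). So `F(x, y/(1+7y)) = F(x, φ(y)) + K(x, φ(y))` with `K` of degree at most `d - 9` (SUBA), and composition with `φ` changes by degree at most `-5` (SUBB, `e = 2`). So `oA - 1 - dX` lowers by `5`;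
`oB` in the same way. Model: `Pool/Agent/Helper72/W5/M_Nfa.lean`. -/
def S7Nfa : Prop := ∀ (r s : ℕ),
  (∀ w : Fin 6, Lw (oW w : Module.End (ZMod 7) (Fn7 (7 ^ r) (7 ^ s))) 0) ∧
  (∀ w : Fin 6, Lw (dX * oW w - ((om6 w : ℤ) : ZMod 7) • (oW w * dX) :
    Module.End (ZMod 7) (Fn7 (7 ^ r) (7 ^ s))) 2) ∧
  (∀ w : Fin 6, Lw (dY * oW w - ((om6 w : ℤ) : ZMod 7) ^ 5 • (oW w * dY) :
    Module.End (ZMod 7) (Fn7 (7 ^ r) (7 ^ s))) 2) ∧
  (∀ (w : Fin 6) (F : Fn7 (7 ^ r) (7 ^ s)), F ∈ Wd7 0 → oW w F = F) ∧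
  (∀ (w : Fin 6) (i j : ℕ) (F : Fn7 (7 ^ r) (7 ^ s)), F ∈ Wd7 ((i : ℤ) + j) →
    (dX ^ i * dY ^ j : Module.End (ZMod 7) (Fn7 (7 ^ r) (7 ^ s))) (oW w F) =
      ((om6 w : ℤ) : ZMod 7) ^ (i + 5 * j) • (dX ^ i * dY ^ j : Module.End (ZMod 7) (Fn7 (7 ^ r) (7 ^ s))) F) ∧
  Lw (oD - 1 : Module.End (ZMod 7) (Fn7 (7 ^ r) (7 ^ s))) 6 ∧
  Lw (oA - 1 - dX : Module.End (ZMod 7) (Fn7 (7 ^ r) (7 ^ s))) 5 ∧
  Lw (oB - 1 - dY : Module.End (ZMod 7) (Fn7 (7 ^ r) (7 ^ s))) 5 ∧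
  Lw (oA - 1 : Module.End (ZMod 7) (Fn7 (7 ^ r) (7 ^ s))) 1 ∧
  Lw (oB - 1 : Module.End (ZMod 7) (Fn7 (7 ^ r) (7 ^ s))) 1

/-- NF (from TRM, LOW0, NFA, SUBA). Normal form modulo operators which lower by `9`. Proof: with `C0 = om γ`, `D0 = om (7 γ β + 8^m)`, the product `oW w * oB^γ * oD^m * oA^β` is `op7 1 β C0 D0` (TRM:
`(1 0; 0 om)(1 0; 7γ 1)(1 0; 0 8^m)(1 β; 0 1) = (1 β; 7 C0 D0)`). Let `M = (a b; 7c d)`, `M0 = (1 β; 7C0 D0)`, `N = M adj(M0) = (n1 n2; 7 n3 n4)`, `n1 = a D0 - 7 b C0`, `n2 = b - a β`, `n3 = c D0 - d C0`, `n4 = d - 7 c β`: then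
`49 ∣ n2`, `49 ∣ n3`, `49 ∣ n1 - n4`, and `op7 N * op7 M0 = op7 M` (`N M0 = det(M0) M`, TRM; `det M0 = om 8^m`). `(x,y) N = (x + 49 t(x), y + 49 t'(y))`: `(n2 + n4 x)/(n1 + 7 n3 x) - x = (n2 + (n4 - n1) x - 7 n3 x²)/(n1 + 7 n3 x)`,
and `t`, `t'` respect congruences. So `op7 N - 1` lowers by `9` (SUBA in `x` and in `y`), and `op7 M0` preserves degrees (NFA). Model: `Pool/Agent/Helper29/W5/M_Nf.lean`. -/
def S7Nf : Prop := ∀ (r s : ℕ) (a b c d : ℤ) (w : Fin 6) (β γ m : ℕ), ¬ 7 ∣ a → ¬ 7 ∣ d →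
  49 ∣ b - β * a → 49 ∣ c - γ * om6 w * a → 49 ∣ d - (7 * γ * β + 8 ^ m) * om6 w * a →
    Lw (op7 a b c d - oW w * oB ^ γ * oD ^ m * oA ^ β :
      Module.End (ZMod 7) (Fn7 (7 ^ r) (7 ^ s))) 9

/-- `1/a` modulo `49`. -/
def aI (t : Tm) : ℤ := (t.2.1 ^ 41) % 49

/-- The exponent of `oA`: `b/a` modulo `49`. -/
def bE (t : Tm) : ℕ := ((t.2.2.1 * aI t) % 49).toNat

/-- `det/a²` modulo `49`. -/
def lE (t : Tm) : ℤ := ((t.2.1 * t.2.2.2.2 - 7 * t.2.2.1 * t.2.2.2.1) * aI t ^ 2) % 49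

/-- The index of the root of unity (`5^w`: `1, 5, 4, 6, 2, 3`). -/
def wE (t : Tm) : Fin 6 :=
  if lE t % 7 = 1 then 0 else if lE t % 7 = 5 then 1 else if lE t % 7 = 4 then 2
  else if lE t % 7 = 6 then 3 else if lE t % 7 = 2 then 4 else 5

/-- The inverses of the roots of unity modulo `49`. -/
def oi6 : Fin 6 → ℤ := ![1, 31, 30, 48, 18, 19]

/-- The exponent of `oD`. -/
def mE (t : Tm) : ℕ := (((lE t * oi6 (wE t)) % 49) / 7).toNat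

/-- The exponent of `oB`. -/
def gE (t : Tm) : ℕ := ((t.2.2.2.1 * aI t * oi6 (wE t)) % 49).toNat

/-- The coefficient of `oW w * (oB - 1)^i * (oD - 1)^k * (oA - 1)^j` in the expansion of a list. -/
def cS (L : List Tm) (w : Fin 6) (i k j : ℕ) : ℤ :=
  (L.map fun t : Tm => if wE t = w then
    (t.1 : ℤ) * (((gE t).choose i * (mE t).choose k * (bE t).choose j : ℕ) : ℤ) else 0).sum

/-- The monomials `(i, k, j)` of weight `i + 6k + j` at most `8`. -/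
def M9 : Finset (ℕ × ℕ × ℕ) :=
  (Finset.range 9 ×ˢ Finset.range 2 ×ˢ Finset.range 9).filter fun t => t.1 + 6 * t.2.1 + t.2.2 ≤ 8

/-- EXP (from LOW0, NFA, NF). Expansion of a list of operators modulo operators which lower by `9`. Proof: every term by NF (with `w = wE t`, `β = bE t`, `γ = gE t`, `m = mE t`: for `7 ∤ a d`, `a aI ≡ 1` modulo `49` (`a^42 ≡ 1`), `b ≡ β a`,
`lE ≡ det/a²`, `lE ≡ om6 w` modulo `7`, `om6 w * oi6 w ≡ 1` modulo `49`, so `lE * oi6 w ≡ 1 + 7m ≡ 8^m` modulo `49`, `m ≤ 6`; `c ≡ γ om a`, and `d a ≡ lE a² + 7 b c` gives `d ≡ (8^m + 7 γ β) om a`), `oB^γ = (1 + (oB - 1))^γ` etc., binomial theorem;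
the products with `i + 6k + j ≥ 9` lower by `9`, and `M9` contains all `(i, k, j)` of weight at most `8`. Model: `Pool/Agent/Helper98/W5/M_Exp.lean`. -/
def S7Exp : Prop := ∀ (r s : ℕ) (L : List Tm), (∀ t ∈ L, Gd t) →
  Lw ((opL L : Module.End (ZMod 7) (Fn7 (7 ^ r) (7 ^ s))) - ∑ w : Fin 6, ∑ t ∈ M9,
    ((cS L w t.1 t.2.1 t.2.2 : ℤ) : ZMod 7) • (oW w * (oB - 1) ^ t.1 * (oD - 1) ^ t.2.1 * (oA - 1) ^ t.2.2 :
      Module.End (ZMod 7) (Fn7 (7 ^ r) (7 ^ s)))) 9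

/-- LW1 (from LOW0, NFA, NF). `op7 a b c d` with `7 ∤ a d` preserves degrees, and modulo operators which lower by `2` it is `oW w (1 + (b/a) dX + (c/(om a)) dY)`, where `d ≡ om6 w a` modulo `7`. Proof: NF with `w`, `β ≡ b/a`,
`γ ≡ c/(om a)`, `m` as in EXP (`det/a² ≡ d/a ≡ om6 w` modulo `7`); `oB^γ = 1 + γ (oB - 1) + ...`, `oA^β = 1 + β (oA - 1) + ...` with products which lower by `2`, `oD^m - 1` lowers by `6`, `oA - 1 - dX`, `oB - 1 - dY` lower by `5`;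
`1/a ≡ a⁵` modulo `7`. Model: `Pool/Agent/Helper81/W5/M_Lw1.lean`. -/
def S7Lw1 : Prop := ∀ (r s : ℕ) (a b c d : ℤ), ¬ 7 ∣ a → ¬ 7 ∣ d →
  Lw (op7 a b c d : Module.End (ZMod 7) (Fn7 (7 ^ r) (7 ^ s))) 0 ∧
  ∀ w : Fin 6, 7 ∣ d - om6 w * a →
    Lw (op7 a b c d - oW w : Module.End (ZMod 7) (Fn7 (7 ^ r) (7 ^ s))) 1 ∧
    Lw (op7 a b c d - oW w * (1 + ((b * a ^ 5 : ℤ) : ZMod 7) • dX +
      ((c * a ^ 5 * om6 w ^ 5 : ℤ) : ZMod 7) • dY) : Module.End (ZMod 7) (Fn7 (7 ^ r) (7 ^ s))) 2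

/-- The coefficient of `dX^i dY^j` at the origin, for functions of degree at most 6. -/
def nS (L : List Tm) (i j : ℕ) : ℤ :=
  (L.map fun t : Tm => (t.1 : ℤ) * (((((t.2.2.1 * t.2.1 ^ 5) % 7).toNat).choose i *
    (((t.2.2.2.1 * t.2.2.2.2 ^ 5) % 7).toNat).choose j : ℕ) : ℤ)).sum

/-- VAL (from LOW0). The value at the origin. For `F` of degree at most `6`: `dX^7 F = 0 = dY^7 F`, so `F` has periods `7` in both variables (`(1 + dX)^7 = 1 + dX^7`), so `(op7 a b c d F)(0,0) = F(b/a, c/d) = F(x, y)` with the natural numbers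
`x = (b a⁵) % 7`, `y = (c d⁵) % 7`, and `F(x, y) = ∑_{i, j ≤ 6} (x choose i)(y choose j) (dX^i dY^j F)(0,0)` (`F(x, y) = ((1 + dX)^x (1 + dY)^y F)(0,0)`). Model: the first part of `Pool/Agent/Helper53/W5/M_Om.lean`. -/
def S7Val : Prop := ∀ (r s : ℕ) (L : List Tm), (∀ t ∈ L, Gd t) → ∀ F : Fn7 (7 ^ r) (7 ^ s), F ∈ Wd7 6 →
  (opL L F) 0 0 = ∑ i ∈ Finset.range 7, ∑ j ∈ Finset.range 7, ((nS L i j : ℤ) : ZMod 7) *
    ((dX ^ i * dY ^ j : Module.End (ZMod 7) (Fn7 (7 ^ r) (7 ^ s))) F) 0 0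

/-- OPM (from TRM). Products of lists, multiples, concatenation, and the relations as lists (`relL`). `opL (mulL L L') = opL L * opL L'` (TRM, the terms are prime to `7`). -/
def S7Opm : Prop := ∀ (r s : ℕ),
  (∀ L L' : List Tm, (∀ t ∈ L, Gd t) → (∀ t ∈ L', Gd t) → (∀ t ∈ mulL L L', Gd t) ∧
    (opL (mulL L L') : Module.End (ZMod 7) (Fn7 (7 ^ r) (7 ^ s))) = opL L * opL L') ∧
  (∀ (n : ℤ) (L : List Tm), (opL (sclL n L) : Module.End (ZMod 7) (Fn7 (7 ^ r) (7 ^ s))) = ((n : ℤ) : ZMod 7) • opL L) ∧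
  (∀ L L' : List Tm, (opL (L ++ L') : Module.End (ZMod 7) (Fn7 (7 ^ r) (7 ^ s))) = opL L + opL L') ∧
  (∀ F : Fin 2 → Fn7 (7 ^ r) (7 ^ s), Rel7 F ↔ ∀ ρ : Fin 2, ∑ f : Fin 2, opL (relL ρ f) (F f) = 0)

/-- The product of binomial coefficients `(x choose i)(y choose j)` modulo 7. -/
def bb7 (i j : ℕ) {q q' : ℕ} : Fn7 q q' := fun x y => ((x.val.choose i * y.val.choose j : ℕ) : ZMod 7)

/-- BB. Binomial basis: for `i < 7^r`, `j < 7^s`: `bb7 i j ∈ Wd7 (i+j)`, `dX (bb7 (i+1) j) = bb7 i j` (`i + 1 < 7^r`),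
`dX (bb7 0 j) = 0`, the same for `dY`; and the Newton expansion. (Pascal; wrap around `x = 7^r - 1`:
`(7^r choose i) = 0` modulo 7 for `0 < i < 7^r`.) Model: `Pool/Agent/Helper32/W5/M_Bb.lean`. -/
def S7Bb : Prop := ∀ (r s : ℕ),
  (∀ i j : ℕ, i < 7 ^ r → j < 7 ^ s →
    (bb7 i j : Fn7 (7 ^ r) (7 ^ s)) ∈ Wd7 ((i : ℤ) + j)) ∧
  (∀ i j : ℕ, i + 1 < 7 ^ r → j < 7 ^ s → dX (bb7 (i + 1) j : Fn7 (7 ^ r) (7 ^ s)) = bb7 i j) ∧
  (∀ i j : ℕ, i < 7 ^ r → j + 1 < 7 ^ s → dY (bb7 i (j + 1) : Fn7 (7 ^ r) (7 ^ s)) = bb7 i j) ∧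
  (∀ j : ℕ, j < 7 ^ s → dX (bb7 0 j : Fn7 (7 ^ r) (7 ^ s)) = 0) ∧
  (∀ i : ℕ, i < 7 ^ r → dY (bb7 i 0 : Fn7 (7 ^ r) (7 ^ s)) = 0) ∧
  (∀ F : Fn7 (7 ^ r) (7 ^ s), F = ∑ i ∈ Finset.range (7 ^ r), ∑ j ∈ Finset.range (7 ^ s),
    (((dX ^ i * dY ^ j : Module.End (ZMod 7) (Fn7 (7 ^ r) (7 ^ s))) F) 0 0) • bb7 i j)

/-- LIFP (from TRM). Lifting solutions of the relations to integers. Let `f = F0`, `a = 5 (2 F1 + F1∘ρ1)`, `b = 5 (2 k + k∘ρ2)` modulo 7, `k = F0 - F0∘T - F1`: for `N = 1 + ρ + ρ²` one has `(1 - ρ)(2 + ρ) = 3 - N` and `3·5 = 1`, so by Rel7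
`a - a∘ρ1 = F1`, `b - b∘ρ2 = k` and `f - f∘T - (a - a∘ρ1) - (b - b∘ρ2) = 0`. Take any integral lifts of `f, a, b`; the defect `E` of this
equation is divisible by 7 and has total sum zero over the plane (`p ↦ pT` etc. are bijections, TRM); `E/7` has total sum zero, and every integral function with sum zero is the defect of some
`(f, a, b)`, because modulo defects `δ_p ≡ δ_(pg)` for `g = T, ρ1, ρ2`, so also for `B⁻¹ = T⁻¹ ρ2 ρ1²` (up to sign: `(5 -3; 7 -4)(-3 1; -7 2) = (6 -1; 7 -1)`, `T⁻¹ (6 -1; 7 -1) = (-1 0; 7 -1)`), and the plane is connected under `T` and `B`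
(`(x,y) T^z = (x + z, y/(1 + 7zy))`, `(x, y) B^z = (x/(1 + 7zx), y + z)`: move to `(0, y')` and then to `(0,0)`). Subtract `7` times this solution; then `F0 = f`, `F1 = a - a∘ρ1` satisfy `Rel7` over `ℤ`
(`F1 + F1∘ρ1 + F1∘ρ1² = a - a∘ρ1³ = 0`, `k = b - b∘ρ2`) and reduce to the given functions. Model: `Pool/Agent/Helper92/W5/M_Lifp.lean`. -/
def S7Lifp : Prop := ∀ (r s : ℕ) (f : Fin 2 → Fn7 (7 ^ r) (7 ^ s)), Rel7 f →
  ∃ F : Fin 2 → ZMod (7 ^ r) → ZMod (7 ^ s) → ℤ, Rel7 F ∧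
    ∀ i x y, ((F i x y : ℤ) : ZMod 7) = f i x y

/-- LIF (from REL, LIFP, EX, UNI). Lifting symbols: every symbol `g` modulo 7 is, up to a constant, the reduction of an integral symbol `G`, so `G` and `g` have the same values at all words modulo 7. Proof: REL, LIFP, EX over `ℤ`;
the reduction of `G` is a symbol with the same two functions as `g`, so by UNI it equals `g` up to a constant; `Tw` commutes with reduction and respects `EqC` (`EqC.Tl`). Model: `Pool/Agent/Helper78/W5/M_Lif.lean`. -/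
def S7Lif : Prop := ∀ (r s : ℕ) (g : ℤ → ℤ → ZMod 7), SymP 7 r (s + 1) g →
  ∃ G : ℤ → ℤ → ℤ, SymP 7 r (s + 1) G ∧ EqC (fun p q => ((G p q : ℤ) : ZMod 7)) g ∧
    ∀ ls : List ℕ, Ok 7 ls → ((evw (7 ^ r) ls G : ℤ) : ZMod 7) = evw (7 ^ r) ls g

/-- The complex potential of level `(0, r+s)` of an integral one of level `(r, s)`. -/
noncomputable def ub (r : ℕ) (G : ℤ → ℤ → ℤ) : ℤ → ℤ → ℂ := fun p q => ((G (7 ^ r * p) q : ℤ) : ℂ)

/-- UNB. Back to `Γ₀(7^n)` and to complex values: if `G` is an integral symbol of level `(r, s)` then `ub r G` is a symbol of level `(0, r+s)` with `evw 1 ls (ub r G) = evw (7^r) ls G`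
(`Tl l 1 (ub r G) = ub r (Tl l (7^r) G)`, for all `l` and `G`; `Homog` is preserved by `Tl l m`, `l > 0`). Model: `Pool/Agent/Helper62/W5/M_Unb.lean`. -/
def S7Unb : Prop := ∀ (r : ℕ) (G : ℤ → ℤ → ℤ),
  (∀ l : ℕ, Tl l 1 (ub r G) = ub r (Tl l (7 ^ r) G)) ∧
  ∀ s : ℕ, SymP 7 r s G → SymP 7 0 (r + s) (ub r G) ∧
    ∀ ls : List ℕ, Ok 7 ls → evw 1 ls (ub r G) = ((evw (7 ^ r) ls G : ℤ) : ℂ)

end Pool.Agent.Helper84.S7
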